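import Pool.Agent.Run7.h33.NM.Paths

/-!
# Generation by few vertices

Closed sets of vertices in a graph in which a vertex outside of a closed set has at most one
neighbour inside.
-/

set_option autoImplicit false
set_option linter.unusedSectionVars false

namespace Run7.h33.NM

open SimpleGraph Finset

variable {V : Type} [Fintype V] [DecidableEq V] {G : SimpleGraph V}

/-- The properties of the closed sets that are used. -/
structure Ctx (G : SimpleGraph V) (Cl : Finset V → Prop) (d r q : ℕ) : Prop where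
  deg : ∀ v, d + 1 ≤ (nb G v).card
  one : ∀ K, Cl K → ∀ z, z ∉ K → ∀ u ∈ K, ∀ u' ∈ K, G.Adj z u → G.Adj z u' → u = u'
  far : ∀ u z, G.Adj u z → ∃ R : Finset V, r ≤ R.card ∧
    ∀ v ∈ R, ∀ K, Cl K → u ∈ K → v ∈ K → z ∈ K
  dense : ∀ M : Finset V, d * M.card < 2 * ∑ u ∈ M, (nb G u ∩ M).card → q ≤ M.card

/-- Growth of closed sets, relative to a smaller closed set `K₀`. -/
theorem growth {Cl : Finset V → Prop} {d r q : ℕ} (hX : Ctx G Cl d r q) (hd : 1 ≤ d)
    {K₀ K : Finset V} (h₀ : Cl K₀) (hK : Cl K) (hne : (K \ K₀).Nonempty)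
    (hq : (K \ K₀).card < q) :
    ∃ v, v ∉ K ∧ ∀ K', Cl K' → insert v K ⊆ K' →
      d * r * (K \ K₀).card ≤ 2 * Fintype.card V * (K' \ K).card := by
  obtain ⟨M, hM⟩ : ∃ M, M = K \ K₀ := ⟨_, rfl⟩
  rw [← hM] at hne hq ⊢
  have hMK : ∀ u ∈ M, u ∈ K ∧ u ∉ K₀ := by
    intro u hu
    rw [hM, mem_sdiff] at hu
    exact hu
  have hsum : 2 * ∑ u ∈ M, (nb G u ∩ M).card ≤ d * M.card := by
    by_contra hcon
    have := hX.dense M (by omega)
    omega
  -- the boundary
  obtain ⟨D, hD⟩ : ∃ D, D = M.biUnion fun u => nb G u \ K := ⟨_, rfl⟩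
  have hDcard : D.card = ∑ u ∈ M, (nb G u \ K).card := by
    rw [hD]
    refine card_biUnion ?_
    intro u hu u' hu' hne'
    rw [mem_coe] at hu hu'
    rw [Function.onFun, Finset.disjoint_left]
    intro z hz hz'
    rw [mem_sdiff, mem_nb] at hz hz'
    exact hne' (hX.one K hK z hz.2 u (hMK u hu).1 u' (hMK u' hu').1 hz.1.symm hz'.1.symm)
  have hdeg : ∀ u ∈ M, d ≤ (nb G u \ K).card + (nb G u ∩ M).card := by
    intro u hu
    have h1 : nb G u ⊆ (nb G u \ K) ∪ ((nb G u ∩ M) ∪ (nb G u ∩ K₀)) := by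
      intro z hz
      rw [mem_union, mem_union, mem_sdiff, mem_inter, mem_inter]
      by_cases hzK : z ∈ K
      · by_cases hz0 : z ∈ K₀
        · exact Or.inr (Or.inr ⟨hz, hz0⟩)
        · exact Or.inr (Or.inl ⟨hz, by rw [hM, mem_sdiff]; exact ⟨hzK, hz0⟩⟩)
      · exact Or.inl ⟨hz, hzK⟩
    have h2 : (nb G u ∩ K₀).card ≤ 1 := by
      rw [card_le_one]
      intro a ha b hb
      rw [mem_inter, mem_nb] at ha hb
      exact hX.one K₀ h₀ u (hMK u hu).2 a ha.2 b hb.2 ha.1 hb.1
    have h3 := (card_le_card h1).trans ((card_union_le _ _).trans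
      (Nat.add_le_add_left (card_union_le _ _) _))
    have h4 := hX.deg u
    omega
  have hDbig : d * M.card ≤ 2 * D.card := by
    have h1 : ∑ _u ∈ M, d ≤ ∑ u ∈ M, ((nb G u \ K).card + (nb G u ∩ M).card) :=
      sum_le_sum hdeg
    rw [sum_const, smul_eq_mul, sum_add_distrib, ← hDcard] at h1
    have h2 : M.card * d = d * M.card := mul_comm _ _
    omega
  -- the vertices generated by a vertex of the boundary and a far vertex
  have hmemD : ∀ z, z ∈ D → z ∉ K ∧ ∃ u ∈ M, G.Adj u z := by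
    intro z hz
    rw [hD, mem_biUnion] at hz
    obtain ⟨u, hu, hz⟩ := hz
    rw [mem_sdiff, mem_nb] at hz
    exact ⟨hz.2, u, hu, hz.1⟩
  have hR : ∀ z, ∃ R : Finset V, z ∈ D → r ≤ R.card ∧ ∀ v ∈ R, v ∉ K ∧
      ∀ K', Cl K' → insert v K ⊆ K' → z ∈ K' := by
    intro z
    by_cases hz : z ∈ D
    · obtain ⟨hzK, u, hu, huz⟩ := hmemD z hz
      obtain ⟨R, hR1, hR2⟩ := hX.far u z huz
      refine ⟨R, fun _ => ⟨hR1, fun v hv => ⟨fun hvK => ?_, fun K' hK' hsub => ?_⟩⟩⟩
      · exact hzK (hR2 v hv K hK (hMK u hu).1 hvK)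
      · exact hR2 v hv K' hK' (hsub (mem_insert_of_mem (hMK u hu).1))
          (hsub (mem_insert_self _ _))
    · exact ⟨∅, fun h => absurd h hz⟩
  choose R hR using hR
  have hdc : ∑ z ∈ D, (R z).card = ∑ v ∈ univ \ K, (D.filter fun z => v ∈ R z).card := by
    have h1 : ∀ z ∈ D, (R z).card = ∑ v ∈ univ \ K, if v ∈ R z then 1 else 0 := by
      intro z hz
      rw [sum_boole, Nat.cast_id]
      congr 1
      ext v
      rw [mem_filter, mem_sdiff]
      constructor
      · intro hv
        exact ⟨⟨mem_univ _, ((hR z hz).2 v hv).1⟩, hv⟩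
      · rintro ⟨-, hv⟩
        exact hv
    rw [sum_congr rfl h1, sum_comm]
    refine sum_congr rfl fun v _ => ?_
    rw [sum_boole, Nat.cast_id]
  have hlow : D.card * r ≤ ∑ v ∈ univ \ K, (D.filter fun z => v ∈ R z).card := by
    rw [← hdc, ← smul_eq_mul, ← sum_const]
    exact sum_le_sum fun z hz => (hR z hz).1
  have hMpos : 0 < M.card := card_pos.2 hne
  have hVK : (univ \ K).Nonempty := by
    have h1 : 0 < d * M.card := Nat.mul_pos hd hMpos
    have h2 : 0 < D.card := by omega
    obtain ⟨z, hz⟩ := card_pos.1 h2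
    exact ⟨z, mem_sdiff.2 ⟨mem_univ _, (hmemD z hz).1⟩⟩
  obtain ⟨v, hv, hvmax⟩ := exists_max_image (univ \ K)
    (fun v => (D.filter fun z => v ∈ R z).card) hVK
  have hup : ∑ w ∈ univ \ K, (D.filter fun z => w ∈ R z).card ≤
      Fintype.card V * (D.filter fun z => v ∈ R z).card := by
    calc ∑ w ∈ univ \ K, (D.filter fun z => w ∈ R z).card
        ≤ ∑ _w ∈ univ \ K, (D.filter fun z => v ∈ R z).card := sum_le_sum hvmax
      _ = (univ \ K).card * (D.filter fun z => v ∈ R z).card := by
          rw [sum_const, smul_eq_mul]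
      _ ≤ _ := Nat.mul_le_mul_right _ (card_le_univ _)
  refine ⟨v, (mem_sdiff.1 hv).2, fun K' hK' hsub => ?_⟩
  have hin : (D.filter fun z => v ∈ R z) ⊆ K' \ K := by
    intro z hz
    rw [mem_filter] at hz
    exact mem_sdiff.2 ⟨((hR z hz.1).2 v hz.2).2 K' hK' hsub, (hmemD z hz.1).1⟩
  have h1 := card_le_card hin
  calc d * r * M.card = r * (d * M.card) := by ring
    _ ≤ r * (2 * D.card) := Nat.mul_le_mul_left _ hDbig
    _ = 2 * (D.card * r) := by ring
    _ ≤ 2 * (Fintype.card V * (D.filter fun z => v ∈ R z).card) :=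
        Nat.mul_le_mul_left _ (hlow.trans hup)
    _ ≤ 2 * (Fintype.card V * (K' \ K).card) :=
        Nat.mul_le_mul_left _ (Nat.mul_le_mul_left _ h1)
    _ = _ := by ring

/-- A dense set contains a subset with large minimum degree. -/
theorem exists_core (d : ℕ) (M : Finset V)
    (h : d * M.card < 2 * ∑ u ∈ M, (nb G u ∩ M).card) :
    ∃ S, S ⊆ M ∧ S.Nonempty ∧ ∀ u ∈ S, d < 4 * (nb G u ∩ S).card := by
  induction hn : M.card generalizing M with
  | zero =>
    rw [card_eq_zero] at hn
    rw [hn] at h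
    simp at h
  | succ n ih =>
    by_cases hall : ∀ u ∈ M, d < 4 * (nb G u ∩ M).card
    · exact ⟨M, Subset.rfl, card_pos.1 (by omega), hall⟩
    push Not at hall
    obtain ⟨u, hu, hud⟩ := hall
    have h1 : ∑ w ∈ M, (nb G w ∩ M).card ≤
        ∑ w ∈ M.erase u, (nb G w ∩ M.erase u).card + 2 * (nb G u ∩ M).card := by
      rw [← add_sum_erase M (fun w => (nb G w ∩ M).card) hu]
      have h2 : ∀ w ∈ M.erase u, (nb G w ∩ M).card ≤
          (nb G w ∩ M.erase u).card + if w ∈ nb G u then 1 else 0 := by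
        intro w hw
        split_ifs with hwu
        · have h3 : nb G w ∩ M ⊆ insert u (nb G w ∩ M.erase u) := by
            intro z hz
            rw [mem_inter] at hz
            rw [mem_insert, mem_inter, mem_erase]
            by_cases hzu : z = u
            · exact Or.inl hzu
            · exact Or.inr ⟨hz.1, hzu, hz.2⟩
          exact (card_le_card h3).trans (card_insert_le _ _)
        · have h3 : nb G w ∩ M ⊆ nb G w ∩ M.erase u := by
            intro z hz
            rw [mem_inter] at hz ⊢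
            rw [mem_erase]
            refine ⟨hz.1, ?_, hz.2⟩
            rintro rfl
            exact hwu (mem_nb.2 (mem_nb.1 hz.1).symm)
          rw [add_zero]
          exact card_le_card h3
      have h4 := sum_le_sum h2
      rw [sum_add_distrib, sum_boole, Nat.cast_id] at h4
      have h5 : ((M.erase u).filter fun w => w ∈ nb G u).card ≤ (nb G u ∩ M).card := by
        apply card_le_card
        intro w hw
        rw [mem_filter, mem_erase] at hw
        exact mem_inter.2 ⟨hw.2, hw.1.2⟩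
      omega
    have h2 : (M.erase u).card = n := by
      rw [card_erase_of_mem hu]
      omega
    have h3 : d * (M.erase u).card < 2 * ∑ w ∈ M.erase u, (nb G w ∩ M.erase u).card := by
      rw [h2]
      rw [hn] at h
      have h4 : d * (n + 1) = d * n + d := by ring
      omega
    obtain ⟨S, hS, hS2⟩ := ih (M.erase u) h3 h2
    exact ⟨S, hS.trans (erase_subset _ _), hS2⟩

end Run7.h33.NM
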