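import Pool.Agent.Run7.h33.NM.Wl

/-!
# Graphs without short cycles and C4-free graphs: the Weisfeiler-Leman dimension
-/

set_option autoImplicit false
set_option linter.unusedSectionVars false

namespace Run7.h33.NM

open SimpleGraph Finset Pool.Agent.N624.NT Pool.Agent.W185.SRG

section

variable {V : Type} [Fintype V] [DecidableEq V] {G : SimpleGraph V}

/-- The restriction of a graph to a set of vertices, as a graph on all vertices. -/
def cut (G : SimpleGraph V) (S : Finset V) : SimpleGraph V where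
  Adj a b := G.Adj a b ∧ a ∈ S ∧ b ∈ S
  symm := ⟨fun _ _ h => ⟨h.1.symm, h.2.2, h.2.1⟩⟩
  loopless := ⟨fun _ h => h.1.ne rfl⟩

theorem cut_le (S : Finset V) : cut G S ≤ G := fun _ _ h => h.1

theorem nb_cut {S : Finset V} {u : V} (hu : u ∈ S) : nb (cut G S) u = nb G u ∩ S := by
  ext w
  rw [mem_nb, mem_inter, mem_nb]
  exact ⟨fun h => ⟨h.1, h.2.2⟩, fun h => ⟨h.1, hu, h.2⟩⟩

theorem nonempty_of_dense {d : ℕ} {M : Finset V}
    (h : d * M.card < 2 * ∑ u ∈ M, (nb G u ∩ M).card) : 1 ≤ M.card := by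
  rcases M.eq_empty_or_nonempty with rfl | h1
  · simp at h
  · exact card_pos.2 h1

theorem ctxP {k d : ℕ} (hk : 2 ≤ k) (hG : NoShortCycle G (2 * k))
    (hd : ∀ v, d + 1 ≤ (nb G v).card) :
    Ctx G (ClP G k) d (d ^ (k - 1)) (max 1 ((d / 4) ^ k)) where
  deg := hd
  one := by
    intro K hK z hz u hu u' hu' hzu hzu'
    by_contra hne
    refine hz (hK u hu u' hu' (Walk.cons hzu.symm (Walk.cons hzu' Walk.nil)) ?_ ?_ z (by simp))
    · refine (Walk.IsPath.nil.cons ?_).cons ?_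
      · rw [Walk.support_nil, List.mem_singleton]
        exact hzu'.ne
      · rw [Walk.support_cons, Walk.support_nil, List.mem_cons, List.mem_singleton, not_or]
        exact ⟨hzu.ne.symm, hne⟩
    · simp only [Walk.length_cons, Walk.length_nil]
      omega
  far := by
    intro u z huz
    refine ⟨rch G (k - 1) u z, card_rch hG univ (fun v _ => hd v) (fun _ _ _ _ => mem_univ _)
      (k - 1) (by omega) (mem_univ _) huz, ?_⟩
    intro v hv K hK hu hvK
    obtain ⟨p, hp, hpl, hup⟩ := mem_rch.1 hv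
    exact hK u hu v hvK (Walk.cons huz p) (hp.cons hup) (by rw [Walk.length_cons]; omega) z
      (by rw [Walk.support_cons]; exact List.mem_cons_of_mem _ p.start_mem_support)
  dense := by
    intro M hM
    refine max_le (nonempty_of_dense hM) ?_
    obtain ⟨S, hSM, ⟨u, hu⟩, hS⟩ := exists_core d M hM
    refine le_trans ?_ (card_le_card hSM)
    have hdeg : ∀ v ∈ S, d / 4 + 1 ≤ (nb (cut G S) v).card := by
      intro v hv
      rw [nb_cut hv]
      have := hS v hv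
      omega
    have hcl : ∀ v ∈ S, ∀ w, (cut G S).Adj v w → w ∈ S := fun _ _ _ h => h.2.2
    obtain ⟨z, hz⟩ : (nb (cut G S) u).Nonempty := by
      rw [← card_pos]
      have := hdeg u hu
      omega
    rw [mem_nb] at hz
    refine (card_rch (hG.mono (cut_le S)) S hdeg hcl k le_rfl hz.2.2 hz).trans
      (card_le_card ?_)
    intro v hv
    obtain ⟨p, -⟩ := mem_rch.1 hv
    exact walk_mem hcl p hz.2.2

/-- No two vertices have two common neighbours. -/
def NoC4 (G : SimpleGraph V) : Prop :=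
  ∀ u v z z', u ≠ v → G.Adj z u → G.Adj z v → G.Adj z' u → G.Adj z' v → z = z'

theorem ctxC {d : ℕ} (hG : NoC4 G) (hd : ∀ v, d + 1 ≤ (nb G v).card) :
    Ctx G (ClC G) d (d ^ (2 - 1)) (max 1 ((d / 4) ^ 2)) where
  deg := hd
  one := by
    intro K hK z hz u hu u' hu' hzu hzu'
    by_contra hne
    exact hz (hK u hu u' hu' hne z hzu hzu')
  far := by
    intro u z huz
    refine ⟨(nb G z).erase u, ?_, ?_⟩
    · rw [card_erase_of_mem (mem_nb.2 huz.symm)]
      have := hd z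
      simp only [pow_one, show (2 - 1 : ℕ) = 1 from rfl]
      omega
    · intro v hv K hK hu hvK
      rw [mem_erase, mem_nb] at hv
      exact hK u hu v hvK hv.1.symm z huz.symm hv.2
  dense := by
    intro M hM
    refine max_le (nonempty_of_dense hM) ?_
    obtain ⟨S, hSM, ⟨u, hu⟩, hS⟩ := exists_core d M hM
    refine le_trans ?_ (card_le_card hSM)
    have h1 : (nb G u ∩ S).biUnion (fun z => (nb G z ∩ S).erase u) ⊆ S := by
      intro v hv
      rw [mem_biUnion] at hv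
      obtain ⟨z, -, hv⟩ := hv
      exact (mem_inter.1 (mem_of_mem_erase hv)).2
    have h2 : ((nb G u ∩ S).biUnion (fun z => (nb G z ∩ S).erase u)).card =
        ∑ z ∈ nb G u ∩ S, ((nb G z ∩ S).erase u).card := by
      refine card_biUnion ?_
      intro z hz z' hz' hne
      rw [mem_coe, mem_inter, mem_nb] at hz hz'
      rw [Function.onFun, Finset.disjoint_left]
      intro v hv hv'
      rw [mem_erase, mem_inter, mem_nb] at hv hv'
      exact hne (hG u v z z' hv.1.symm hz.1.symm hv.2.1 hz'.1.symm hv'.2.1)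
    have h3 : ∑ _z ∈ nb G u ∩ S, d / 4 ≤ ∑ z ∈ nb G u ∩ S, ((nb G z ∩ S).erase u).card := by
      refine sum_le_sum fun z hz => ?_
      rw [mem_inter, mem_nb] at hz
      rw [card_erase_of_mem (mem_inter.2 ⟨mem_nb.2 hz.1.symm, hu⟩)]
      have := hS z hz.2
      omega
    rw [sum_const, smul_eq_mul] at h3
    have h4 : d / 4 ≤ (nb G u ∩ S).card := by
      have := hS u hu
      omega
    calc (d / 4) ^ 2 = d / 4 * (d / 4) := by ring
      _ ≤ (nb G u ∩ S).card * (d / 4) := Nat.mul_le_mul_right _ h4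
      _ ≤ _ := h3
      _ = _ := h2.symm
      _ ≤ _ := card_le_card h1

end

section

variable {V W : Type} [Fintype V] [Fintype W] {G : SimpleGraph V} {H : SimpleGraph W} {N : ℕ}

theorem main_abs [DecidableEq V] [Nonempty V] {Cl : Finset V → Prop} {d r q : ℕ}
    (hX : Ctx G Cl d r q) (hd : 1 ≤ d) (hr : 1 ≤ r) (hq : 1 ≤ q)
    (hcl : ∀ E : List (V × W), E.length + 2 ≤ N → Cl (kn G H N E)) {B L : ℕ} (hB : 1 ≤ B)
    (hBn : 2 * Fintype.card V ≤ B * (d * r)) (hL : Fintype.card V < 2 ^ L)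
    (hN : (Fintype.card V / q + 1) * (B * L + 1) + 2 ≤ N) (h : WLEquivalent N G H) :
    Nonempty (G ≃g H) := by
  obtain ⟨Ach, hAch⟩ : ∃ Ach : ℕ → Finset V → Prop, Ach = fun t K =>
    ∃ E : List (V × W), Pos G H N E ∧ E.length ≤ t ∧ kn G H N E = K := ⟨_, rfl⟩
  have hcl' : ∀ t K, Ach t K → t ≤ N - 2 → Cl K := by
    intro t K hK ht
    rw [hAch] at hK
    obtain ⟨E, -, hE, rfl⟩ := hK
    exact hcl E (by omega)
  have hstep : ∀ t K v, Ach t K → t < N - 2 → ∃ K', Ach (t + 1) K' ∧ insert v K ⊆ K' := by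
    intro t K v hK ht
    rw [hAch] at hK
    obtain ⟨E, hP, hE, rfl⟩ := hK
    obtain ⟨β, hβ⟩ := hP.step (by omega)
    refine ⟨kn G H N ((v, β v) :: E), ?_, ?_⟩
    · rw [hAch]
      exact ⟨_, hβ v, by rw [List.length_cons]; omega, rfl⟩
    · intro x hx
      rcases mem_insert.1 hx with rfl | hx
      · exact mem_kn.2 (kl_mem (e := (x, β x)) List.mem_cons_self)
      · exact mem_kn.2 ((mem_kn.1 hx).mono fun e he => List.mem_cons_of_mem _ he)
  have h0 : Ach 0 (kn G H N []) := by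
    rw [hAch]
    exact ⟨[], pos_nil h, le_rfl, rfl⟩
  obtain ⟨t, ht, hu⟩ := generate hX hd hr hq hcl' hstep hB hBn hL h0 (by omega)
  rw [hAch] at hu
  obtain ⟨E, hP, hE, hun⟩ := hu
  refine iso_of_known hP (by omega) fun x => mem_kn.1 ?_
  rw [hun]
  exact mem_univ _

theorem arith {k d n : ℕ} (hk : 2 ≤ k) (hd : 1 ≤ d)
    (hN : 100 ^ k * (n / (d + 1) ^ k + 1) ^ 2 * (Nat.log 2 n + 1) ≤ N) :
    (n / max 1 ((d / 4) ^ k) + 1) * ((2 * n / d ^ k + 1) * (Nat.log 2 n + 1) + 1) + 2 ≤ N := by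
  obtain ⟨m, hm⟩ : ∃ m, m = n / (d + 1) ^ k := ⟨_, rfl⟩
  obtain ⟨L, hL⟩ : ∃ L, L = Nat.log 2 n + 1 := ⟨_, rfl⟩
  obtain ⟨q, hq⟩ : ∃ q, q = max 1 ((d / 4) ^ k) := ⟨_, rfl⟩
  rw [← hm, ← hL] at hN
  rw [← hL, ← hq]
  have hn : n ≤ (m + 1) * (d + 1) ^ k := by
    have h1 := Nat.lt_div_mul_add (a := n) (b := (d + 1) ^ k) (Nat.pow_pos (by omega))
    rw [← hm] at h1
    have e : (m + 1) * (d + 1) ^ k = m * (d + 1) ^ k + (d + 1) ^ k := by ring
    omega
  have hq1 : 1 ≤ q := by rw [hq]; exact le_max_left _ _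
  have hdq : (d + 1) ^ k ≤ 8 ^ k * q := by
    by_cases h4 : d / 4 = 0
    · have h5 : d + 1 ≤ 8 := by omega
      calc (d + 1) ^ k ≤ 8 ^ k := Nat.pow_le_pow_left h5 k
        _ = 8 ^ k * 1 := (mul_one _).symm
        _ ≤ _ := Nat.mul_le_mul_left _ hq1
    · have h5 : d + 1 ≤ 8 * (d / 4) := by omega
      calc (d + 1) ^ k ≤ (8 * (d / 4)) ^ k := Nat.pow_le_pow_left h5 k
        _ = 8 ^ k * (d / 4) ^ k := mul_pow _ _ _
        _ ≤ _ := Nat.mul_le_mul_left _ (by rw [hq]; exact le_max_right _ _)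
  have h1 : n / q ≤ (m + 1) * 8 ^ k := by
    refine Nat.div_le_of_le_mul ?_
    calc n ≤ (m + 1) * (d + 1) ^ k := hn
      _ ≤ (m + 1) * (8 ^ k * q) := Nat.mul_le_mul_left _ hdq
      _ = _ := by ring
  have h2 : 2 * n / d ^ k ≤ 2 * (m + 1) * 2 ^ k := by
    refine Nat.div_le_of_le_mul ?_
    have h5 : (d + 1) ^ k ≤ 2 ^ k * d ^ k := by
      rw [← mul_pow]
      exact Nat.pow_le_pow_left (by omega) k
    calc 2 * n ≤ 2 * ((m + 1) * (d + 1) ^ k) := Nat.mul_le_mul_left _ hn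
      _ ≤ 2 * ((m + 1) * (2 ^ k * d ^ k)) :=
          Nat.mul_le_mul_left _ (Nat.mul_le_mul_left _ h5)
      _ = _ := by ring
  have hL1 : 1 ≤ L := by omega
  have h8 : 1 ≤ 8 ^ k := Nat.one_le_pow _ _ (by norm_num)
  have h22 : 1 ≤ 2 ^ k := Nat.one_le_pow _ _ (by norm_num)
  have h3 : n / q + 1 ≤ 2 * ((m + 1) * 8 ^ k) := by
    have : 1 ≤ (m + 1) * 8 ^ k := Nat.mul_pos (by omega) h8
    omega
  have h4 : 2 * n / d ^ k + 1 ≤ 4 * (m + 1) * 2 ^ k := by
    have : 1 ≤ (m + 1) * 2 ^ k := Nat.mul_pos (by omega) h22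
    have e : 4 * (m + 1) * 2 ^ k = 2 * (m + 1) * 2 ^ k + 2 * ((m + 1) * 2 ^ k) := by ring
    omega
  have h5 : (2 * n / d ^ k + 1) * L + 1 ≤ 8 * (m + 1) * 2 ^ k * L := by
    have h6 : (2 * n / d ^ k + 1) * L ≤ 4 * (m + 1) * 2 ^ k * L := Nat.mul_le_mul_right _ h4
    have h7 : 1 ≤ (m + 1) * 2 ^ k * L :=
      Nat.mul_pos (Nat.mul_pos (by omega) h22) hL1
    have e : 8 * (m + 1) * 2 ^ k * L = 4 * (m + 1) * 2 ^ k * L + 4 * ((m + 1) * 2 ^ k * L) := by
      ring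
    omega
  have h6 : (n / q + 1) * ((2 * n / d ^ k + 1) * L + 1) ≤
      2 * ((m + 1) * 8 ^ k) * (8 * (m + 1) * 2 ^ k * L) := Nat.mul_le_mul h3 h5
  have e16 : (16 : ℕ) ^ k = 8 ^ k * 2 ^ k := by
    rw [← mul_pow]
    norm_num
  have h7 : 18 * 16 ^ k ≤ 100 ^ k := by
    have h8 : (100 : ℕ) ^ k = 100 ^ 2 * 100 ^ (k - 2) := by
      rw [← pow_add]
      congr 1
      omega
    have h9 : (16 : ℕ) ^ k = 16 ^ 2 * 16 ^ (k - 2) := by
      rw [← pow_add]
      congr 1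
      omega
    have h10 : (16 : ℕ) ^ (k - 2) ≤ 100 ^ (k - 2) := Nat.pow_le_pow_left (by norm_num) _
    rw [h8, h9]
    omega
  have h9 : 1 ≤ 16 ^ k * ((m + 1) ^ 2 * L) :=
    Nat.mul_pos (Nat.pow_pos (by norm_num)) (Nat.mul_pos (Nat.pow_pos (by omega)) hL1)
  calc (n / q + 1) * ((2 * n / d ^ k + 1) * L + 1) + 2
      ≤ 2 * ((m + 1) * 8 ^ k) * (8 * (m + 1) * 2 ^ k * L) + 2 := Nat.add_le_add_right h6 2
    _ = 16 * (16 ^ k * ((m + 1) ^ 2 * L)) + 2 := by rw [e16]; ring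
    _ ≤ 18 * (16 ^ k * ((m + 1) ^ 2 * L)) := by omega
    _ = 18 * 16 ^ k * ((m + 1) ^ 2 * L) := by ring
    _ ≤ 100 ^ k * ((m + 1) ^ 2 * L) := Nat.mul_le_mul_right _ h7
    _ = 100 ^ k * (m + 1) ^ 2 * L := by ring
    _ ≤ N := hN

theorem card_nb (v : V) : (nb G v).card = (G.neighborSet v).ncard := by
  classical
  rw [← Set.ncard_coe_finset]
  congr 1
  ext w
  rw [mem_coe, mem_nb, SimpleGraph.mem_neighborSet]

/-- Graphs without cycles of length at most `2 k`. -/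
theorem main_girth [Nonempty V] {k δ : ℕ} (hk : 2 ≤ k) (hδ : 2 ≤ δ)
    (hG : NoShortCycle G (2 * k)) (hd : ∀ v, δ ≤ (G.neighborSet v).ncard)
    (hN : 100 ^ k * (Fintype.card V / δ ^ k + 1) ^ 2 * (Nat.log 2 (Fintype.card V) + 1) ≤ N)
    (h : WLEquivalent N G H) : Nonempty (G ≃g H) := by
  classical
  obtain ⟨d, rfl⟩ : ∃ d, δ = d + 1 := ⟨δ - 1, by omega⟩
  have hd' : ∀ v, d + 1 ≤ (nb G v).card := fun v => by rw [card_nb]; exact hd v
  have hd1 : 1 ≤ d := by omega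
  have e : d * d ^ (k - 1) = d ^ k := by
    rw [← pow_succ']
    congr 1
    omega
  refine main_abs (ctxP hk hG hd') hd1 (Nat.pow_pos hd1) (le_max_left _ _)
    (fun E hE => clP_kn hG hE) (B := 2 * Fintype.card V / d ^ k + 1)
    (L := Nat.log 2 (Fintype.card V) + 1) (Nat.le_add_left _ _) ?_
    (Nat.lt_pow_succ_log_self (by norm_num) _) (arith hk hd1 hN) h
  rw [e]
  have := Nat.lt_div_mul_add (a := 2 * Fintype.card V) (b := d ^ k) (Nat.pow_pos hd1)
  have e2 : (2 * Fintype.card V / d ^ k + 1) * d ^ k =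
    2 * Fintype.card V / d ^ k * d ^ k + d ^ k := by ring
  omega

/-- Graphs without cycles of length four. -/
theorem main_c4 [Nonempty V] {δ : ℕ} (hδ : 2 ≤ δ)
    (hG : ∀ u v z z', u ≠ v → G.Adj z u → G.Adj z v → G.Adj z' u → G.Adj z' v → z = z')
    (hd : ∀ v, δ ≤ (G.neighborSet v).ncard)
    (hN : 10000 * (Fintype.card V / δ ^ 2 + 1) ^ 2 * (Nat.log 2 (Fintype.card V) + 1) ≤ N)
    (h : WLEquivalent N G H) : Nonempty (G ≃g H) := by
  classical
  obtain ⟨d, rfl⟩ : ∃ d, δ = d + 1 := ⟨δ - 1, by omega⟩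
  have hd' : ∀ v, d + 1 ≤ (nb G v).card := fun v => by rw [card_nb]; exact hd v
  have hd1 : 1 ≤ d := by omega
  have e : d * d ^ (2 - 1) = d ^ 2 := by
    rw [← pow_succ']
  refine main_abs (ctxC hG hd') hd1 (Nat.pow_pos hd1) (le_max_left _ _)
    (fun E hE => clC_kn hG hE) (B := 2 * Fintype.card V / d ^ 2 + 1)
    (L := Nat.log 2 (Fintype.card V) + 1) (Nat.le_add_left _ _) ?_
    (Nat.lt_pow_succ_log_self (by norm_num) _) (arith le_rfl hd1 (by norm_num; exact hN)) h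
  rw [e]
  have := Nat.lt_div_mul_add (a := 2 * Fintype.card V) (b := d ^ 2) (Nat.pow_pos hd1)
  have e2 : (2 * Fintype.card V / d ^ 2 + 1) * d ^ 2 =
    2 * Fintype.card V / d ^ 2 * d ^ 2 + d ^ 2 := by ring
  omega

theorem one_le_of {k δ n N : ℕ}
    (hN : 100 ^ k * (n / δ ^ k + 1) ^ 2 * (Nat.log 2 n + 1) ≤ N) : 1 ≤ N := by
  refine le_trans ?_ hN
  exact Nat.mul_pos (Nat.mul_pos (Nat.pow_pos (by norm_num)) (Nat.pow_pos (Nat.succ_pos _)))
    (Nat.succ_pos _)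

theorem iso_of_empty [IsEmpty V] (hN : 1 ≤ N) (h : WLEquivalent N G H) : Nonempty (G ≃g H) := by
  obtain ⟨ψ, -⟩ := h
  have hW : IsEmpty W := by
    by_contra hcon
    rw [not_isEmpty_iff] at hcon
    obtain ⟨w⟩ := hcon
    exact IsEmpty.false (ψ.symm (fun _ => w) ⟨0, hN⟩)
  exact ⟨⟨Equiv.equivOfIsEmpty V W, fun {a} => isEmptyElim a⟩⟩

end

end Run7.h33.NM
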