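import Mathlib

/-!
# Paths in graphs without short cycles
-/

set_option autoImplicit false
set_option linter.unusedSectionVars false

namespace Run7.h33.NM

open SimpleGraph Finset

/-- `G` has no cycles of length at most `m`. -/
def NoShortCycle {V : Type} (G : SimpleGraph V) (m : ℕ) : Prop :=
  ∀ (v : V) (c : G.Walk v v), c.IsCycle → m < c.length

section

variable {V : Type} {G : SimpleGraph V} {m : ℕ}

theorem NoShortCycle.mono {G' : SimpleGraph V} (h : NoShortCycle G m) (hG : G' ≤ G) :
    NoShortCycle G' m := by
  intro v c hc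
  have h1 := h v (c.mapLe hG) (hc.mapLe hG)
  simpa using h1

/-- Two paths with the same ends whose lengths add up to at most `m` are equal. -/
theorem NoShortCycle.path_unique (h : NoShortCycle G m) {u v : V} {p q : G.Walk u v}
    (hp : p.IsPath) (hq : q.IsPath) (hl : p.length + q.length ≤ m) : p = q := by
  classical
  obtain ⟨s, hs⟩ : ∃ s : Set (Sym2 V), s = {e | e ∈ p.edges ∨ e ∈ q.edges} := ⟨_, rfl⟩
  obtain ⟨U, hU⟩ : ∃ U : SimpleGraph V, U = SimpleGraph.fromEdgeSet s := ⟨_, rfl⟩
  have hmem : ∀ e, e ∈ U.edgeSet ↔ (e ∈ p.edges ∨ e ∈ q.edges) := by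
    intro e
    rw [hU, SimpleGraph.edgeSet_fromEdgeSet, hs]
    constructor
    · rintro ⟨h1, -⟩
      exact h1
    · intro h1
      refine ⟨h1, ?_⟩
      have h2 : e ∈ G.edgeSet := by
        rcases h1 with h1 | h1
        · exact p.edges_subset_edgeSet h1
        · exact q.edges_subset_edgeSet h1
      exact fun h3 => G.not_isDiag_of_mem_edgeSet h2 h3
  have hUG : U ≤ G := by
    rw [← SimpleGraph.edgeSet_subset_edgeSet]
    intro e he
    rcases (hmem e).1 he with h1 | h1
    · exact p.edges_subset_edgeSet h1
    · exact q.edges_subset_edgeSet h1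
  have hpU : ∀ e ∈ p.edges, e ∈ U.edgeSet := fun e he => (hmem e).2 (Or.inl he)
  have hqU : ∀ e ∈ q.edges, e ∈ U.edgeSet := fun e he => (hmem e).2 (Or.inr he)
  have hac : U.IsAcyclic := by
    intro w c hc
    have h1 := (h.mono hUG) w c hc
    have h2 : c.edges.toFinset ⊆ (p.edges ++ q.edges).toFinset := by
      intro e he
      rw [List.mem_toFinset] at he ⊢
      rw [List.mem_append]
      exact (hmem e).1 (c.edges_subset_edgeSet he)
    have h3 := Finset.card_le_card h2
    rw [List.toFinset_card_of_nodup hc.isTrail.edges_nodup] at h3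
    have h4 := List.toFinset_card_le (p.edges ++ q.edges)
    rw [List.length_append, Walk.length_edges, Walk.length_edges] at h4
    rw [Walk.length_edges] at h3
    omega
  have h5 := (hac.subsingleton_path u v).elim ⟨p.transfer U hpU, hp.transfer hpU⟩
    ⟨q.transfer U hqU, hq.transfer hqU⟩
  have h6 : p.transfer U hpU = q.transfer U hqU := congrArg Subtype.val h5
  have h7 : (p.transfer U hpU).support = (q.transfer U hqU).support := by rw [h6]
  rw [Walk.support_transfer, Walk.support_transfer] at h7
  exact Walk.ext_support h7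

end

section

variable {V : Type} [Fintype V] (G : SimpleGraph V)

open Classical in
/-- The neighbours of a vertex. -/
noncomputable def nb (v : V) : Finset V := univ.filter fun w => G.Adj v w

open Classical in
/-- The vertices reached from `z` by paths of length `j` that avoid `u`. -/
noncomputable def rch (j : ℕ) (u z : V) : Finset V :=
  univ.filter fun v => ∃ p : G.Walk z v, p.IsPath ∧ p.length = j ∧ u ∉ p.support

variable {G}

theorem mem_nb {v w : V} : w ∈ nb G v ↔ G.Adj v w := by simp [nb]

theorem mem_rch {j : ℕ} {u z v : V} : v ∈ rch G j u z ↔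
    ∃ p : G.Walk z v, p.IsPath ∧ p.length = j ∧ u ∉ p.support := by simp [rch]

theorem walk_mem {S : Finset V} (hS : ∀ v ∈ S, ∀ w, G.Adj v w → w ∈ S) {u v : V}
    (p : G.Walk u v) (hu : u ∈ S) : v ∈ S := by
  induction p with
  | nil => exact hu
  | cons h p ih => exact ih (hS _ hu _ h)

/-- The number of the vertices reached by paths of length `j` from an edge is at least `d ^ j`. -/
theorem card_rch {k d : ℕ} (hG : NoShortCycle G (2 * k)) (S : Finset V)
    (hd : ∀ v ∈ S, d + 1 ≤ (nb G v).card) (hS : ∀ v ∈ S, ∀ w, G.Adj v w → w ∈ S) (j : ℕ)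
    (hj : j ≤ k) {u z : V} (hz : z ∈ S) (huz : G.Adj u z) : d ^ j ≤ (rch G j u z).card := by
  classical
  induction j generalizing u z with
  | zero =>
    rw [pow_zero]
    refine card_pos.2 ?_
    refine ⟨z, mem_rch.2 ⟨Walk.nil, Walk.IsPath.nil, rfl, ?_⟩⟩
    rw [Walk.support_nil, List.mem_singleton]
    exact huz.ne
  | succ j ih =>
    have h1 : ((nb G z).erase u).biUnion (fun w => rch G j z w) ⊆ rch G (j + 1) u z := by
      intro v hv
      rw [mem_biUnion] at hv
      obtain ⟨w, hw, hv⟩ := hv
      rw [mem_erase, mem_nb] at hw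
      obtain ⟨hwu, hzw⟩ := hw
      obtain ⟨p, hp, hpl, hzp⟩ := mem_rch.1 hv
      refine mem_rch.2 ⟨Walk.cons hzw p, hp.cons hzp, by rw [Walk.length_cons, hpl], ?_⟩
      rw [Walk.support_cons, List.mem_cons, not_or]
      refine ⟨huz.ne, fun hup => ?_⟩
      -- a path from `z` through `w` to `u`
      have hq : (Walk.cons hzw (p.takeUntil u hup)).IsPath := by
        refine (hp.takeUntil hup).cons ?_
        intro h2
        exact hzp (p.support_takeUntil_subset_support hup h2)
      have hr : (Walk.cons huz.symm (Walk.nil : G.Walk u u)).IsPath := by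
        refine Walk.IsPath.nil.cons ?_
        rw [Walk.support_nil, List.mem_singleton]
        exact huz.ne.symm
      have h3 := hG.path_unique hq hr (by
        rw [Walk.length_cons, Walk.length_cons, Walk.length_nil]
        have := p.length_takeUntil_le_length hup
        omega)
      have h4 := congrArg Walk.length h3
      rw [Walk.length_cons, Walk.length_cons, Walk.length_nil] at h4
      have h5 : (p.takeUntil u hup).length = 0 := by omega
      exact hwu (Walk.eq_of_length_eq_zero h5)
    have h2 : (((nb G z).erase u).biUnion (fun w => rch G j z w)).card =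
        ∑ w ∈ (nb G z).erase u, (rch G j z w).card := by
      refine card_biUnion ?_
      intro w hw w' hw' hne
      rw [mem_coe, mem_erase, mem_nb] at hw hw'
      rw [Function.onFun, Finset.disjoint_left]
      intro v hv hv'
      obtain ⟨p, hp, hpl, hzp⟩ := mem_rch.1 hv
      obtain ⟨p', hp', hpl', hzp'⟩ := mem_rch.1 hv'
      have h3 := hG.path_unique (hp.cons hzp (h := hw.2)) (hp'.cons hzp' (h := hw'.2)) (by
        rw [Walk.length_cons, Walk.length_cons]
        omega)
      have h4 := congrArg (fun r => Walk.getVert r 1) h3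
      simp at h4
      exact hne h4
    have h3 : ∑ _w ∈ (nb G z).erase u, d ^ j ≤ ∑ w ∈ (nb G z).erase u, (rch G j z w).card := by
      refine sum_le_sum fun w hw => ?_
      rw [mem_erase, mem_nb] at hw
      exact ih (by omega) (hS z hz w hw.2) hw.2
    rw [sum_const, smul_eq_mul] at h3
    have h4 : d ≤ ((nb G z).erase u).card := by
      rw [card_erase_of_mem (mem_nb.2 huz.symm)]
      have := hd z hz
      omega
    calc d ^ (j + 1) = d * d ^ j := by ring
      _ ≤ ((nb G z).erase u).card * d ^ j := Nat.mul_le_mul_right _ h4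
      _ ≤ _ := h3
      _ = _ := h2.symm
      _ ≤ _ := card_le_card h1

end

end Run7.h33.NM
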