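import Pool.Agent.Run7.h33.NM.Growth

/-!
# The number of generators
-/

set_option autoImplicit false
set_option linter.unusedSectionVars false

namespace Run7.h33.NM

open SimpleGraph Finset

variable {V : Type} [Fintype V] [DecidableEq V] {G : SimpleGraph V}

theorem pow_bound (B L n : ℕ) (hB : 1 ≤ B) (hL : n < 2 ^ L) :
    n * B ^ (B * L) < (B + 1) ^ (B * L) := by
  have h1 : 2 * B ^ B ≤ (B + 1) ^ B := by
    have h2 : (B + 1) ^ B = ∑ m ∈ range (B + 1), B ^ m * 1 ^ (B - m) * (B.choose m) :=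
      add_pow B 1 B
    obtain ⟨b, rfl⟩ : ∃ b, B = b + 1 := ⟨B - 1, by omega⟩
    rw [h2, sum_range_succ, sum_range_succ]
    simp only [one_pow, mul_one, Nat.choose_self, Nat.choose_succ_self_right]
    have h3 : (b + 1) ^ b * (b + 1) = (b + 1) ^ (b + 1) := by ring
    rw [h3]
    have : 0 ≤ ∑ x ∈ range b, (b + 1) ^ x * (b + 1).choose x := Nat.zero_le _
    omega
  have h2 : 2 ^ L * B ^ (B * L) ≤ (B + 1) ^ (B * L) := by
    rw [pow_mul, pow_mul, ← mul_pow]
    exact Nat.pow_le_pow_left h1 L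
  have h3 : 0 < B ^ (B * L) := Nat.pow_pos (by omega)
  exact lt_of_lt_of_le (Nat.mul_lt_mul_of_pos_right hL h3) h2

/-- One phase: the known set becomes larger by `q` or everything is known. -/
theorem phase {Cl : Finset V → Prop} {d r q : ℕ} (hX : Ctx G Cl d r q) (hd : 1 ≤ d) (hr : 1 ≤ r)
    {Ach : ℕ → Finset V → Prop} {Nmax : ℕ} (hcl : ∀ t K, Ach t K → t ≤ Nmax → Cl K)
    (hstep : ∀ t K v, Ach t K → t < Nmax → ∃ K', Ach (t + 1) K' ∧ insert v K ⊆ K')
    {B L : ℕ} (hB : 1 ≤ B) (hBn : 2 * Fintype.card V ≤ B * (d * r))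
    (hL : Fintype.card V < 2 ^ L) {t : ℕ} {K₀ : Finset V} (h₀ : Ach t K₀)
    (ht : t + (B * L + 1) ≤ Nmax) :
    ∃ K', Ach (t + (B * L + 1)) K' ∧ (K' = univ ∨ K₀.card + q ≤ K'.card) ∨
      ∃ t' ≤ t + (B * L + 1), Ach t' K' ∧ (K' = univ ∨ K₀.card + q ≤ K'.card) := by
  by_cases hu : K₀ = univ
  · exact ⟨K₀, Or.inr ⟨t, by omega, h₀, Or.inl hu⟩⟩
  obtain ⟨v₀, hv₀⟩ : ∃ v, v ∉ K₀ := by
    by_contra hcon
    push Not at hcon
    exact hu (eq_univ_iff_forall.2 hcon)
  have key : ∀ i, i ≤ B * L → ∃ t' ≤ t + (i + 1), ∃ K', Ach t' K' ∧ K₀ ⊆ K' ∧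
      (K' = univ ∨ K₀.card + q ≤ K'.card ∨
        ((K' \ K₀).Nonempty ∧ (B + 1) ^ i ≤ B ^ i * (K' \ K₀).card)) := by
    intro i
    induction i with
    | zero =>
      intro _
      obtain ⟨K', hK', hsub⟩ := hstep t K₀ v₀ h₀ (by omega)
      have h1 : v₀ ∈ K' \ K₀ := mem_sdiff.2 ⟨hsub (mem_insert_self _ _), hv₀⟩
      refine ⟨t + 1, by omega, K', hK', (subset_insert _ _).trans hsub, Or.inr (Or.inr
        ⟨⟨v₀, h1⟩, ?_⟩)⟩
      rw [pow_zero, pow_zero, one_mul]
      exact card_pos.2 ⟨v₀, h1⟩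
    | succ i ih =>
      intro hi
      obtain ⟨t', ht', K, hK, hsub, hcase⟩ := ih (by omega)
      rcases hcase with h1 | h1 | ⟨hne, h1⟩
      · exact ⟨t', by omega, K, hK, hsub, Or.inl h1⟩
      · exact ⟨t', by omega, K, hK, hsub, Or.inr (Or.inl h1)⟩
      by_cases hq : (K \ K₀).card < q
      · obtain ⟨v, hv, hgrow⟩ := growth hX hd (hcl t K₀ h₀ (by omega)) (hcl t' K hK (by omega))
          hne hq
        obtain ⟨K', hK', hsub'⟩ := hstep t' K v hK (by omega)
        have hKK' : K ⊆ K' := (subset_insert _ _).trans hsub'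
        have h2 := hgrow K' (hcl _ K' hK' (by omega)) hsub'
        have h3 : (K \ K₀).card ≤ B * (K' \ K).card := by
          have hdr : 0 < d * r := Nat.mul_pos hd hr
          refine Nat.le_of_mul_le_mul_left ?_ hdr
          calc d * r * (K \ K₀).card ≤ 2 * Fintype.card V * (K' \ K).card := h2
            _ ≤ B * (d * r) * (K' \ K).card := Nat.mul_le_mul_right _ hBn
            _ = _ := by ring
        have h4 : (K' \ K₀).card = (K \ K₀).card + (K' \ K).card := by
          rw [card_sdiff_of_subset (hsub.trans hKK'), card_sdiff_of_subset hsub,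
            card_sdiff_of_subset hKK']
          have := card_le_card hsub
          have := card_le_card hKK'
          omega
        refine ⟨t' + 1, by omega, K', hK', hsub.trans hKK', Or.inr (Or.inr ⟨?_, ?_⟩)⟩
        · rw [← card_pos, h4]
          have := card_pos.2 hne
          omega
        · calc (B + 1) ^ (i + 1) = (B + 1) * (B + 1) ^ i := by ring
            _ ≤ (B + 1) * (B ^ i * (K \ K₀).card) := Nat.mul_le_mul_left _ h1
            _ = B ^ i * (B * (K \ K₀).card + (K \ K₀).card) := by ring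
            _ ≤ B ^ i * (B * (K \ K₀).card + B * (K' \ K).card) :=
                Nat.mul_le_mul_left _ (by omega)
            _ = B ^ (i + 1) * (K' \ K₀).card := by rw [h4]; ring
      · refine ⟨t', by omega, K, hK, hsub, Or.inr (Or.inl ?_)⟩
        have h2 := card_sdiff_of_subset hsub
        have h3 := card_le_card hsub
        omega
  obtain ⟨t', ht', K', hK', hsub, hcase⟩ := key (B * L) le_rfl
  refine ⟨K', Or.inr ⟨t', ht', hK', ?_⟩⟩
  rcases hcase with h1 | h1 | ⟨-, h1⟩
  · exact Or.inl h1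
  · exact Or.inr h1
  · exfalso
    have h2 := pow_bound B L (Fintype.card V) hB hL
    have h3 : B ^ (B * L) * (K' \ K₀).card ≤ Fintype.card V * B ^ (B * L) := by
      rw [mul_comm]
      exact Nat.mul_le_mul_right _ (card_le_univ _)
    omega

theorem generate {Cl : Finset V → Prop} {d r q : ℕ} (hX : Ctx G Cl d r q) (hd : 1 ≤ d)
    (hr : 1 ≤ r) (hq : 1 ≤ q)
    {Ach : ℕ → Finset V → Prop} {Nmax : ℕ} (hcl : ∀ t K, Ach t K → t ≤ Nmax → Cl K)
    (hstep : ∀ t K v, Ach t K → t < Nmax → ∃ K', Ach (t + 1) K' ∧ insert v K ⊆ K')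
    {B L : ℕ} (hB : 1 ≤ B) (hBn : 2 * Fintype.card V ≤ B * (d * r))
    (hL : Fintype.card V < 2 ^ L) {K₀ : Finset V} (h₀ : Ach 0 K₀)
    (ht : (Fintype.card V / q + 1) * (B * L + 1) ≤ Nmax) :
    ∃ t ≤ (Fintype.card V / q + 1) * (B * L + 1), Ach t univ := by
  have key : ∀ j, j ≤ Fintype.card V / q + 1 → ∃ t ≤ j * (B * L + 1), ∃ K, Ach t K ∧
      (K = univ ∨ j * q ≤ K.card) := by
    intro j
    induction j with
    | zero =>
      intro _
      exact ⟨0, by omega, K₀, h₀, Or.inr (by omega)⟩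
    | succ j ih =>
      intro hj
      obtain ⟨t, htj, K, hK, hcase⟩ := ih (by omega)
      have e1 : (j + 1) * (B * L + 1) = j * (B * L + 1) + (B * L + 1) := by ring
      rcases hcase with h1 | h1
      · exact ⟨t, by omega, K, hK, Or.inl h1⟩
      · have h2 : (j + 1) * (B * L + 1) ≤ (Fintype.card V / q + 1) * (B * L + 1) :=
          Nat.mul_le_mul_right _ hj
        obtain ⟨K', hK'⟩ := phase hX hd hr hcl hstep hB hBn hL hK (by omega)
        have e2 : (j + 1) * q = j * q + q := by ring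
        rcases hK' with ⟨h3, h4⟩ | ⟨t', ht', h3, h4⟩
        · refine ⟨t + (B * L + 1), by omega, K', h3, ?_⟩
          rcases h4 with h4 | h4
          · exact Or.inl h4
          · exact Or.inr (by omega)
        · refine ⟨t', by omega, K', h3, ?_⟩
          rcases h4 with h4 | h4
          · exact Or.inl h4
          · exact Or.inr (by omega)
  obtain ⟨t, ht', K, hK, hcase⟩ := key _ le_rfl
  refine ⟨t, ht', ?_⟩
  rcases hcase with rfl | h1
  · exact hK
  · exfalso
    have h2 := card_le_univ K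
    have h3 : Fintype.card V < (Fintype.card V / q + 1) * q := by
      have := Nat.lt_div_mul_add (a := Fintype.card V) hq
      have e3 : (Fintype.card V / q + 1) * q = Fintype.card V / q * q + q := by ring
      omega
    omega

end Run7.h33.NM
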