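import Pool.Agent.Run7.h33.NM.Process
import Pool.Agent.N624.NT.Know

/-!
# What the Weisfeiler-Leman method knows in a graph without short cycles
-/

set_option autoImplicit false
set_option linter.unusedSectionVars false

namespace Run7.h33.NM

open SimpleGraph Finset Pool.Agent.N624.NT Pool.Agent.W185.SRG

variable {V W : Type} [Fintype V] [Fintype W] {G : SimpleGraph V} {H : SimpleGraph W} {N : ℕ}

/-- The neighbours of the vertices of a known set form a known set. -/
theorem kl_nb {E : List (V × W)} (hN : E.length + 2 ≤ N) {S : Set V} (h : KL G H N E S) :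
    KL G H N E {w | ∃ y ∈ S, G.Adj y w} := by
  obtain ⟨M, hM⟩ := h
  refine ⟨{w | ∃ y ∈ M, H.Adj y w}, fun x' y' hp => ?_⟩
  obtain ⟨β, hβ⟩ := hp.step (by rw [List.length_cons]; omega)
  have hsub : ∀ z, Pos G H N ((z, β z) :: E) := fun z => (hβ z).mono (by
    intro e he
    rcases List.mem_cons.1 he with rfl | he
    · exact List.mem_cons_self
    · exact List.mem_cons_of_mem _ (List.mem_cons_of_mem _ he))
  have hadj : ∀ z, G.Adj z x' ↔ H.Adj (β z) y' := fun z =>
    (hβ z).adj_iff (a := (z, β z)) (b := (x', y')) (by simp) (by simp)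
  constructor
  · rintro ⟨z, hz, hzx⟩
    exact ⟨β z, (hM z (β z) (hsub z)).1 hz, (hadj z).1 hzx⟩
  · rintro ⟨z, hz, hzx⟩
    have h1 := hsub (β.symm z)
    have h2 := hadj (β.symm z)
    rw [Equiv.apply_symm_apply] at h1 h2
    exact ⟨β.symm z, (hM _ _ h1).2 hz, h2.2 hzx⟩

/-- The ends of the walks of a given length from a known vertex. -/
theorem kl_walk {E : List (V × W)} (hN : E.length + 2 ≤ N) {x : V} (h : KL G H N E {x}) (i : ℕ) :
    KL G H N E {w | ∃ p : G.Walk x w, p.length = i} := by
  induction i with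
  | zero =>
    have e : {w | ∃ p : G.Walk x w, p.length = 0} = ({x} : Set V) := by
      ext w
      constructor
      · rintro ⟨p, hp⟩
        exact (Walk.eq_of_length_eq_zero hp).symm
      · intro hw
        rw [Set.mem_singleton_iff] at hw
        subst hw
        exact ⟨Walk.nil, rfl⟩
    rw [e]
    exact h
  | succ i ih =>
    have e : {w | ∃ p : G.Walk x w, p.length = i + 1} =
        {w | ∃ y ∈ {w | ∃ p : G.Walk x w, p.length = i}, G.Adj y w} := by
      ext w
      constructor
      · rintro ⟨p, hp⟩
        refine ⟨p.penultimate, ⟨p.dropLast, ?_⟩, p.adj_penultimate ?_⟩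
        · rw [Walk.length_dropLast, hp]
          rfl
        · rw [Walk.not_nil_iff_lt_length, hp]
          omega
      · rintro ⟨y, ⟨p, hp⟩, hyw⟩
        exact ⟨p.concat hyw, by rw [Walk.length_concat, hp]⟩
    rw [e]
    exact kl_nb hN ih

open Classical in
/-- The known vertices. -/
noncomputable def kn (G : SimpleGraph V) (H : SimpleGraph W) (N : ℕ) (E : List (V × W)) :
    Finset V := univ.filter fun x => KL G H N E {x}

theorem mem_kn {E : List (V × W)} {x : V} : x ∈ kn G H N E ↔ KL G H N E {x} := by simp [kn]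

/-- Closed under the vertices of the paths of length at most `k` between its elements. -/
def ClP (G : SimpleGraph V) (k : ℕ) (K : Finset V) : Prop :=
  ∀ u ∈ K, ∀ v ∈ K, ∀ p : G.Walk u v, p.IsPath → p.length ≤ k → ∀ x ∈ p.support, x ∈ K

/-- Closed under common neighbours. -/
def ClC (G : SimpleGraph V) (K : Finset V) : Prop :=
  ∀ u ∈ K, ∀ v ∈ K, u ≠ v → ∀ z, G.Adj z u → G.Adj z v → z ∈ K

theorem clC_kn (hG : ∀ u v z z', u ≠ v → G.Adj z u → G.Adj z v → G.Adj z' u → G.Adj z' v → z = z')
    {E : List (V × W)} (hN : E.length + 2 ≤ N) : ClC G (kn G H N E) := by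
  intro u hu v hv huv z hzu hzv
  have h1 := (kl_walk hN (mem_kn.1 hu) 1).inter (kl_walk hN (mem_kn.1 hv) 1)
  refine mem_kn.2 ?_
  have e : ({z} : Set V) = {w | ∃ p : G.Walk u w, p.length = 1} ∩
      {w | ∃ p : G.Walk v w, p.length = 1} := by
    ext w
    rw [Set.mem_singleton_iff]
    constructor
    · rintro rfl
      exact ⟨⟨Walk.cons hzu.symm Walk.nil, rfl⟩, ⟨Walk.cons hzv.symm Walk.nil, rfl⟩⟩
    · rintro ⟨⟨p, hp⟩, ⟨p', hp'⟩⟩
      exact hG u v w z huv (Walk.adj_of_length_eq_one hp).symm
        (Walk.adj_of_length_eq_one hp').symm hzu hzv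
  rw [e]
  exact h1

theorem clP_kn {k : ℕ} (hG : NoShortCycle G (2 * k)) {E : List (V × W)}
    (hN : E.length + 2 ≤ N) : ClP G k (kn G H N E) := by
  classical
  intro u hu v hv p hp hpk x hx
  have h1 := (kl_walk hN (mem_kn.1 hu) (p.takeUntil x hx).length).inter
    (kl_walk hN (mem_kn.1 hv) (p.dropUntil x hx).length)
  refine mem_kn.2 ?_
  have e : ({x} : Set V) = {w | ∃ q : G.Walk u w, q.length = (p.takeUntil x hx).length} ∩
      {w | ∃ q : G.Walk v w, q.length = (p.dropUntil x hx).length} := by
    ext w
    rw [Set.mem_singleton_iff]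
    constructor
    · rintro rfl
      exact ⟨⟨_, rfl⟩, ⟨(p.dropUntil w hx).reverse, Walk.length_reverse _⟩⟩
    · rintro ⟨⟨a, ha⟩, ⟨b, hb⟩⟩
      have hsum : (p.takeUntil x hx).length + (p.dropUntil x hx).length = p.length := by
        have := congrArg Walk.length (p.take_spec hx)
        rwa [Walk.length_append] at this
      obtain ⟨q, hq⟩ : ∃ q : G.Walk u v, q = a.append b.reverse := ⟨_, rfl⟩
      have hql : q.length = p.length := by
        rw [hq, Walk.length_append, Walk.length_reverse, ha, hb, hsum]
      have h2 : p = q.bypass := hG.path_unique hp (Walk.bypass_isPath q) (by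
        have := q.length_bypass_le_length
        omega)
      have h3 : q.bypass = q := q.bypass_eq_self_of_length_le_length_bypass (by rw [← h2, hql])
      rw [h3] at h2
      have h4 : ((p.takeUntil x hx).append (p.dropUntil x hx)).getVert
          (p.takeUntil x hx).length = x := by
        rw [Walk.getVert_append]
        simp
      rw [p.take_spec hx] at h4
      have h5 : q.getVert a.length = w := by
        rw [hq, Walk.getVert_append]
        simp
      rw [← h5, ← h2, ha]
      exact h4
  rw [e]
  exact h1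

end Run7.h33.NM
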